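import Mathlib

/-!
Core-compactness of the Scott space of closed sets, for spaces with countable point closures.
-/

namespace Pool.Agent.Q297.CC

open Set TopologicalSpace

universe v

/-- Core-compactness of the space `Y` whose open sets are the members of `O`. -/
def CoreComp {Y : Type v} (O : Set (Set Y)) : Prop :=
  ∀ U ∈ O, ∀ y ∈ U, ∃ V ∈ O, y ∈ V ∧
    ∀ S : Set (Set Y), S ⊆ O → U ⊆ ⋃₀ S → ∃ T : Set (Set Y), T ⊆ S ∧ T.Finite ∧ V ⊆ ⋃₀ T

/-- The open sets of a space. -/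
def opens (X : Type v) [TopologicalSpace X] : Set (Set X) := {U | IsOpen U}

/-- The Scott open sets of a poset. -/
def scottOpens (P : Type v) [PartialOrder P] : Set (Set P) :=
  {U | IsUpperSet U ∧ ∀ D : Set P, D.Nonempty → DirectedOn (· ≤ ·) D → ∀ s, IsLUB D s →
    s ∈ U → (D ∩ U).Nonempty}

/-- Every point has a neighbourhood base of saturations of finite sets. -/
def LocHyp (X : Type v) [TopologicalSpace X] : Prop :=
  ∀ U : Set X, IsOpen U → ∀ x ∈ U, ∃ P : Set X, P.Finite ∧ P ⊆ U ∧ ∃ V : Set X, IsOpen V ∧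
    x ∈ V ∧ ∀ z ∈ V, ∃ p ∈ P, p ∈ closure ({z} : Set X)

variable {X : Type v} [TopologicalSpace X]

theorem LocHyp.core (h : LocHyp X) : CoreComp (opens X) := by
  intro U hU x hx
  obtain ⟨P, hP, hPU, V, hV, hxV, hVP⟩ := h U hU x hx
  refine ⟨V, hV, hxV, fun S hS hUS => ?_⟩
  have h1 : ∀ p : X, p ∈ P → ∃ W ∈ S, p ∈ W := fun p hp => hUS (hPU hp)
  choose! W hW hpW using h1
  refine ⟨W '' P, ?_, hP.image W, ?_⟩
  · rintro _ ⟨p, hp, rfl⟩
    exact hW p hp
  · intro z hz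
    obtain ⟨p, hp, hpz⟩ := hVP z hz
    refine ⟨W p, ⟨p, hp, rfl⟩, ?_⟩
    have h2 : IsOpen (W p) := hS (hW p hp)
    obtain ⟨w, hw, hwz⟩ := mem_closure_iff.mp hpz (W p) h2 (hpW p hp)
    rw [mem_singleton_iff] at hwz
    rwa [hwz] at hw

/-- Closed sets meeting `U`. -/
def dia (U : Set X) : Set (Closeds X) := {C | ((C : Set X) ∩ U).Nonempty}

theorem dia_hit {U : Set X} (hU : IsOpen U) {D : Set (Closeds X)} {s : Closeds X}
    (hs : IsLUB D s) (h : s ∈ dia U) : ∃ d ∈ D, d ∈ dia U := by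
  by_contra hc
  push Not at hc
  have h1 : s ≤ (⟨Uᶜ, hU.isClosed_compl⟩ : Closeds X) := by
    refine hs.2 ?_
    intro d hd x hx hxU
    exact hc d hd ⟨x, hx, hxU⟩
  obtain ⟨x, hx, hxU⟩ := h
  exact h1 hx hxU

theorem dia_scott {U : Set X} (hU : IsOpen U) : dia U ∈ scottOpens (Closeds X) := by
  refine ⟨?_, ?_⟩
  · rintro C C' hCC ⟨x, hx, hxU⟩
    exact ⟨x, hCC hx, hxU⟩
  · intro D _ _ s hs h
    obtain ⟨d, hd, hd'⟩ := dia_hit hU hs h
    exact ⟨d, hd, hd'⟩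

/-- The covering family. -/
def Gn (U : Set X) (A : ℕ → Closeds X) (n : ℕ) : Set (Closeds X) :=
  {C | C ∈ dia U ∧ ∀ m, n ≤ m → ¬ C ≤ A m}

theorem dir_avoid {D : Set (Closeds X)} (hD : DirectedOn (· ≤ ·) D) (A : ℕ → Closeds X)
    {d0 : Closeds X} (hd0 : d0 ∈ D) {M : Set ℕ} (hM : M.Finite) :
    (∀ m ∈ M, ∃ d ∈ D, ¬ d ≤ A m) → ∃ d ∈ D, d0 ≤ d ∧ ∀ m ∈ M, ¬ d ≤ A m := by
  induction M, hM using Set.Finite.induction_on with
  | empty => exact fun _ => ⟨d0, hd0, le_rfl, fun m hm => absurd hm (notMem_empty m)⟩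
  | @insert a M _ _ ih =>
    intro h
    obtain ⟨d, hd, hd0d, hdM⟩ := ih (fun m hm => h m (mem_insert_of_mem _ hm))
    obtain ⟨e, he, hea⟩ := h a (mem_insert _ _)
    obtain ⟨z, hz, hdz, hez⟩ := hD d hd e he
    refine ⟨z, hz, hd0d.trans hdz, fun m hm => ?_⟩
    rcases mem_insert_iff.mp hm with rfl | hm
    · exact fun hc => hea (le_trans hez hc)
    · exact fun hc => hdM m hm (le_trans hdz hc)

theorem Gn_scott {U : Set X} (hU : IsOpen U) {A : ℕ → Closeds X}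
    (hA : ∀ y ∈ U, {m | y ∈ A m}.Finite) (n : ℕ) : Gn U A n ∈ scottOpens (Closeds X) := by
  refine ⟨?_, ?_⟩
  · rintro C C' hCC ⟨h1, h2⟩
    exact ⟨(dia_scott hU).1 hCC h1, fun m hm hc => h2 m hm (le_trans hCC hc)⟩
  · intro D _ hDir s hs h
    by_contra hc
    rw [not_nonempty_iff_eq_empty, Set.eq_empty_iff_forall_notMem] at hc
    obtain ⟨d0, hd0, y, hyd, hyU⟩ := dia_hit hU hs h.1
    have hfin : {m | y ∈ A m ∧ n ≤ m}.Finite := (hA y hyU).subset fun m hm => hm.1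
    have h1 : ∀ m ∈ {m | y ∈ A m ∧ n ≤ m}, ∃ d ∈ D, ¬ d ≤ A m := by
      intro m hm
      by_contra hcc
      push Not at hcc
      exact h.2 m hm.2 (hs.2 hcc)
    obtain ⟨d, hd, hd0d, hdM⟩ := dir_avoid hDir A hd0 hfin h1
    apply hc d
    refine ⟨hd, ⟨y, hd0d hyd, hyU⟩, fun m hm hle => ?_⟩
    exact hdM m ⟨hle (hd0d hyd), hm⟩ hle

theorem no_seq {U : Set X} (hU : IsOpen U) {V : Set (Closeds X)}
    (hV : ∀ S : Set (Set (Closeds X)), S ⊆ scottOpens (Closeds X) → dia U ⊆ ⋃₀ S →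
      ∃ T : Set (Set (Closeds X)), T ⊆ S ∧ T.Finite ∧ V ⊆ ⋃₀ T)
    {A : ℕ → Closeds X} (hA : ∀ y ∈ U, {m | y ∈ A m}.Finite) (hAV : ∀ n, A n ∈ V) : False := by
  have hmono : ∀ m n, m ≤ n → Gn U A m ⊆ Gn U A n :=
    fun m n hmn C hC => ⟨hC.1, fun k hk => hC.2 k (hmn.trans hk)⟩
  obtain ⟨T, hTS, hT, hVT⟩ := hV (range (Gn U A)) (by
    rintro _ ⟨n, rfl⟩
    exact Gn_scott hU hA n) (by
    rintro C ⟨y, hy, hyU⟩
    obtain ⟨N, hN⟩ := (hA y hyU).bddAbove
    refine ⟨Gn U A (N + 1), ⟨N + 1, rfl⟩, ⟨y, hy, hyU⟩, fun m hm hle => ?_⟩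
    have : m ≤ N := hN (hle hy)
    omega)
  have hN : ∃ N, ∀ W ∈ T, W ⊆ Gn U A N := by
    clear hVT
    induction T, hT using Set.Finite.induction_on with
    | empty => exact ⟨0, fun W hW => absurd hW (notMem_empty W)⟩
    | @insert a T _ _ ih =>
      obtain ⟨N, hN⟩ := ih (fun W hW => hTS (mem_insert_of_mem _ hW))
      obtain ⟨k, hk⟩ := hTS (mem_insert a T)
      refine ⟨max N k, fun W hW => ?_⟩
      rcases mem_insert_iff.mp hW with rfl | hW
      · rw [← hk]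
        exact hmono _ _ (le_max_right _ _)
      · exact (hN W hW).trans (hmono _ _ (le_max_left _ _))
  obtain ⟨N, hN⟩ := hN
  obtain ⟨W, hW, hAW⟩ := hVT (hAV N)
  exact (hN W hW hAW).2 N le_rfl le_rfl

theorem fin_gen {V : Set (Closeds X)} (hV : V ∈ scottOpens (Closeds X)) {x : X}
    (hx : (⟨closure {x}, isClosed_closure⟩ : Closeds X) ∈ V) {A : Set X} (hA : x ∈ closure A) :
    ∃ F : Set X, F.Finite ∧ F ⊆ A ∧ (⟨closure F, isClosed_closure⟩ : Closeds X) ∈ V := by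
  let D : Set (Closeds X) := {C | ∃ F : Set X, F.Finite ∧ F ⊆ A ∧ C = ⟨closure F, isClosed_closure⟩}
  have h1 : (⟨closure A, isClosed_closure⟩ : Closeds X) ∈ V := by
    refine hV.1 ?_ hx
    intro y hy
    exact closure_minimal (singleton_subset_iff.mpr hA) isClosed_closure hy
  have h2 : IsLUB D (⟨closure A, isClosed_closure⟩ : Closeds X) := by
    constructor
    · rintro _ ⟨F, _, hFA, rfl⟩
      exact fun y hy => closure_mono hFA hy
    · intro B hB
      have h3 : A ⊆ (B : Set X) := by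
        intro a ha
        have h4 : (⟨closure {a}, isClosed_closure⟩ : Closeds X) ≤ B :=
          hB ⟨{a}, finite_singleton a, singleton_subset_iff.mpr ha, rfl⟩
        exact h4 (subset_closure (mem_singleton a))
      exact fun y hy => closure_minimal h3 B.isClosed hy
  have h3 : DirectedOn (· ≤ ·) D := by
    rintro _ ⟨F, hF, hFA, rfl⟩ _ ⟨G, hG, hGA, rfl⟩
    exact ⟨_, ⟨F ∪ G, hF.union hG, union_subset hFA hGA, rfl⟩,
      fun y hy => closure_mono subset_union_left hy,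
      fun y hy => closure_mono subset_union_right hy⟩
  obtain ⟨_, ⟨F, hF, hFA, rfl⟩, hC⟩ := hV.2 D
    ⟨_, ∅, finite_empty, empty_subset A, rfl⟩ h3 _ h2 h1
  exact ⟨F, hF, hFA, hC⟩

/-- The countability condition: for every open `U` containing `x` there is an open `W` with
`x ∈ W ⊆ U` such that for every `z ∈ W`, the points of `W` in the closure of `z` are bounded below,
in the specialization order, by the points of a countable subset of `U`. -/
def CountCoin (X : Type v) [TopologicalSpace X] : Prop :=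
  ∀ (U : Set X), IsOpen U → ∀ x ∈ U, ∃ W : Set X, IsOpen W ∧ x ∈ W ∧ W ⊆ U ∧ ∀ z ∈ W,
    ∃ E : Set X, E.Countable ∧ E ⊆ U ∧
      ∀ y ∈ closure ({z} : Set X), y ∈ W → ∃ e ∈ E, e ∈ closure ({y} : Set X)

theorem countCoin_of_countable (hX : ∀ x : X, (closure ({x} : Set X)).Countable) :
    CountCoin X := fun U hU _ hx => ⟨U, hU, hx, subset_rfl, fun z _ =>
  ⟨closure {z} ∩ U, (hX z).mono inter_subset_left, inter_subset_right,
    fun y hy hyU => ⟨y, ⟨hy, hyU⟩, subset_closure (mem_singleton y)⟩⟩⟩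

theorem countCoin_of_base (hX : ∀ U : Set X, IsOpen U → ∀ x ∈ U, ∃ E : Set X, E.Countable ∧
    E ⊆ U ∧ ∃ W : Set X, IsOpen W ∧ x ∈ W ∧ W ⊆ U ∧ ∀ y ∈ W, ∃ e ∈ E, e ∈ closure ({y} : Set X)) :
    CountCoin X := by
  intro U hU x hx
  obtain ⟨E, hE, hEU, W, hW, hxW, hWU, hWE⟩ := hX U hU x hx
  exact ⟨W, hW, hxW, hWU, fun z _ => ⟨E, hE, hEU, fun y _ hy => hWE y hy⟩⟩

theorem exists_seq {U W : Set X} {V : Set (Closeds X)}
    (h : ∀ P : Set X, P.Finite → P ⊆ U → ∃ C : Closeds X, C ∈ V ∧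
      (∃ E : Set X, E.Countable ∧ E ⊆ U ∧ ∀ y ∈ C, y ∈ W → ∃ e ∈ E, e ∈ closure ({y} : Set X)) ∧
      ∀ p ∈ P, p ∉ C) :
    ∃ A : ℕ → Closeds X, (∀ n, A n ∈ V) ∧ ∀ y ∈ W, {m | y ∈ A m}.Finite := by
  classical
  by_cases hne : Nonempty X
  · obtain ⟨x0⟩ := hne
    have he : ∀ C : Closeds X, ∃ e : ℕ → X, (∃ E : Set X, E.Countable ∧ E ⊆ U ∧ ∀ y ∈ C, y ∈ W →
        ∃ e ∈ E, e ∈ closure ({y} : Set X)) → ∀ y ∈ C, y ∈ W → ∃ k, e k ∈ U ∧
          e k ∈ closure ({y} : Set X) := by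
      intro C
      by_cases hC : ∃ E : Set X, E.Countable ∧ E ⊆ U ∧ ∀ y ∈ C, y ∈ W →
        ∃ e ∈ E, e ∈ closure ({y} : Set X)
      · obtain ⟨E, hE, hEU, hEC⟩ := hC
        rcases E.eq_empty_or_nonempty with h0 | h0
        · refine ⟨fun _ => x0, fun _ y hy hyU => ?_⟩
          obtain ⟨e, he, _⟩ := hEC y hy hyU
          rw [h0] at he
          exact absurd he (notMem_empty e)
        · obtain ⟨e, he⟩ := hE.exists_eq_range h0
          refine ⟨e, fun _ y hy hyU => ?_⟩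
          obtain ⟨a, ha, hay⟩ := hEC y hy hyU
          have ha' := ha
          rw [he] at ha'
          obtain ⟨k, rfl⟩ := ha'
          exact ⟨k, hEU ha, hay⟩
      · exact ⟨fun _ => x0, fun h => absurd h hC⟩
    choose e he using he
    obtain ⟨f, hf, hr⟩ := exists_seq_of_forall_finset_exists
      (fun q : ℕ × Closeds X => q.2 ∈ V ∧ ∃ E : Set X, E.Countable ∧ E ⊆ U ∧
        ∀ y ∈ q.2, y ∈ W → ∃ e ∈ E, e ∈ closure ({y} : Set X))
      (fun q q' => q.1 < q'.1 ∧ ∀ k, k < q'.1 → e q.2 k ∈ U → e q.2 k ∉ q'.2) (by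
        intro s _
        obtain ⟨N, hN⟩ := (s.finite_toSet.image Prod.fst).bddAbove
        let P : Set X := {p | p ∈ U ∧ ∃ q ∈ s, ∃ k, k < N + 1 ∧ e q.2 k = p}
        have hP : P.Finite := by
          refine ((s.finite_toSet.biUnion
            (fun q _ => (finite_lt_nat (N + 1)).image (e q.2)))).subset ?_
          rintro p ⟨_, q, hq, k, hk, rfl⟩
          exact mem_biUnion hq ⟨k, hk, rfl⟩
        obtain ⟨C, hCV, hC, hCP⟩ := h P hP (fun p hp => hp.1)
        refine ⟨(N + 1, C), ⟨hCV, hC⟩, fun q hq => ⟨?_, fun k hk hU => ?_⟩⟩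
        · have : q.1 ≤ N := hN ⟨q, hq, rfl⟩
          exact Nat.lt_succ_of_le this
        · exact hCP _ ⟨hU, q, hq, k, hk, rfl⟩)
    have hid : ∀ n, n ≤ (f n).1 := by
      intro n
      induction n with
      | zero => exact Nat.zero_le _
      | succ n ih =>
        have := (hr n (n + 1) (Nat.lt_succ_self n)).1
        omega
    refine ⟨fun n => (f n).2, fun n => (hf n).1, fun y hy => ?_⟩
    by_cases hex : ∃ j, y ∈ (f j).2
    · obtain ⟨j, hj⟩ := hex
      obtain ⟨k, hkU, hk⟩ := he (f j).2 (hf j).2 y hj hy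
      refine (finite_lt_nat (max j k + 1)).subset ?_
      intro m hm
      by_contra hc
      have hc' : max j k + 1 ≤ m := by
        simpa using hc
      have h1 : j < m := by omega
      have h2 : k < (f m).1 := by
        have := hid m
        omega
      have h3 := (hr j m h1).2 k h2 hkU
      have hm' : ({y} : Set X) ⊆ ((f m).2 : Set X) := singleton_subset_iff.mpr hm
      exact h3 (closure_minimal hm' (f m).2.isClosed hk)
    · convert finite_empty
      ext m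
      simp only [mem_ofPred_eq, mem_empty_iff_false, iff_false]
      exact fun hm => hex ⟨m, hm⟩
  · obtain ⟨C, hCV, _, _⟩ := h ∅ finite_empty (empty_subset U)
    exact ⟨fun _ => C, fun _ => hCV, fun y _ => absurd ⟨y⟩ hne⟩

theorem main (hX : CountCoin X)
    (h : CoreComp (scottOpens (Closeds X))) : LocHyp X := by
  intro U hU x hx
  by_contra hc
  obtain ⟨W, hW, hxW, hWU, hWE⟩ := hX U hU x hx
  obtain ⟨V, hV, hxV, hVU⟩ := h (dia W) (dia_scott hW) ⟨closure {x}, isClosed_closure⟩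
    ⟨x, subset_closure (mem_singleton x), hxW⟩
  obtain ⟨A, hAV, hA⟩ := exists_seq (U := U) (W := W) (V := V) (by
    intro P hP hPU
    have h1 : x ∈ closure {z : X | ∀ p ∈ P, p ∉ closure ({z} : Set X)} := by
      by_contra h2
      apply hc
      refine ⟨P, hP, hPU, (closure {z : X | ∀ p ∈ P, p ∉ closure ({z} : Set X)})ᶜ,
        isClosed_closure.isOpen_compl, h2, fun z hz => ?_⟩
      by_contra h3
      push Not at h3
      exact hz (subset_closure h3)
    have h1' : x ∈ closure (W ∩ {z : X | ∀ p ∈ P, p ∉ closure ({z} : Set X)}) := by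
      rw [mem_closure_iff] at h1 ⊢
      intro O hO hxO
      obtain ⟨z, ⟨hzO, hzW⟩, hz⟩ := h1 (O ∩ W) (hO.inter hW) ⟨hxO, hxW⟩
      exact ⟨z, hzO, hzW, hz⟩
    obtain ⟨F, hF, hFA, hFV⟩ := fin_gen hV hxV h1'
    have hcl : closure F = ⋃ z ∈ F, closure ({z} : Set X) := by
      rw [← hF.closure_biUnion, biUnion_of_singleton]
    refine ⟨_, hFV, ?_, fun p hp hpC => ?_⟩
    · choose! E hE hEU hEy using hWE
      refine ⟨⋃ z ∈ F, E z, hF.countable.biUnion fun z hz => hE z (hFA hz).1,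
        iUnion₂_subset fun z hz => hEU z (hFA hz).1, fun y hy hyU => ?_⟩
      have h2 : y ∈ closure F := hy
      rw [hcl] at h2
      obtain ⟨z, hz, hyz⟩ := mem_iUnion₂.mp h2
      obtain ⟨a, ha, hay⟩ := hEy z (hFA hz).1 y hyz hyU
      exact ⟨a, mem_iUnion₂.mpr ⟨z, hz, ha⟩, hay⟩
    · have h2 : p ∈ closure F := hpC
      rw [hcl] at h2
      obtain ⟨z, hz, hpz⟩ := mem_iUnion₂.mp h2
      exact (hFA hz).2 p hp hpz)
  exact no_seq hW hVU hA hAV

end Pool.Agent.Q297.CC
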